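import Mathlib

namespace Pool.Agent.Results.MP_648063_co.Q1

open SimpleGraph Finset
open scoped Classical

variable {V : Type}

/-- The edges of the tree-cycle closed by the non-tree edge `e`: `e` and the tree path. -/
def cyc (T : SimpleGraph V) (e : Sym2 V) : Set (Sym2 V) :=
  {f | f = e ∨ ∃ (u v : V) (p : T.Walk u v), e = s(u, v) ∧ p.IsPath ∧ f ∈ p.edges}

/-- The number of unordered pairs of distinct tree-cycles with a common edge. -/
noncomputable def inter (H T : SimpleGraph V) : ℕ :=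
  {s : Finset (Sym2 V) | s.card = 2 ∧ (∀ e ∈ s, e ∈ H.edgeSet ∧ e ∉ T.edgeSet) ∧
    ∃ f, ∀ e ∈ s, f ∈ cyc T e}.ncard

def Q (T : SimpleGraph V) (a b : Sym2 V) (u v : V) : Prop :=
  u ∈ a ∧ v ∈ b ∧ ∀ x ∈ a, ∀ y ∈ b, (x = u ∧ y = v) ∨ T.dist x y < T.dist u v

lemma Q_symm {T : SimpleGraph V} {a b u v} (h : Q T a b u v) : Q T b a v u :=
  ⟨h.2.1, h.1, fun x hx y hy => (h.2.2 y hy x hx).imp And.symm fun h => by
    rwa [dist_comm, dist_comm (u := v)]⟩

lemma Q_uniq {T : SimpleGraph V} {a b u v u' v'} (h : Q T a b u v) (h' : Q T a b u' v') :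
    s(u, v) = s(u', v') := by
  rcases h.2.2 _ h'.1 _ h'.2.1 with ⟨rfl, rfl⟩ | h1
  · rfl
  rcases h'.2.2 _ h.1 _ h.2.1 with ⟨rfl, rfl⟩ | h2
  · rfl
  omega

lemma ends {T : SimpleGraph V} (hT : T.Connected) (e : Sym2 V) (h1 : ¬ e.IsDiag)
    (h2 : e ∉ T.edgeSet) : ∃ a b u v, a ≠ b ∧ a ∈ T.edgeSet ∧ b ∈ T.edgeSet ∧ a ∈ cyc T e ∧
      b ∈ cyc T e ∧ e = s(u, v) ∧ Q T a b u v := by
  induction e using Sym2.ind with | _ u v
  rw [Sym2.mk_isDiag_iff] at h1
  rw [mem_edgeSet] at h2
  obtain ⟨p, hp, hl⟩ := hT.exists_path_of_dist u v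
  cases p with
  | nil => exact absurd rfl h1
  | cons h p =>
    cases p with
    | nil => exact absurd h h2
    | cons h' p =>
      rename_i x z
      obtain ⟨y, q, h'', e⟩ := Walk.exists_cons_eq_concat h' p
      rw [e] at hp hl
      have d1 := dist_le (q.concat h'')
      have d2 := dist_le (Walk.cons h q)
      have d3 := dist_le q
      simp only [Walk.length_cons, Walk.length_concat] at hl d1 d2
      refine ⟨s(u, x), s(y, v), u, v, ?_, h, h'', Or.inr ⟨u, v, _, rfl, hp, by simp⟩,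
        Or.inr ⟨u, v, _, rfl, hp, by simp [Walk.edges_concat]⟩, rfl, by simp, by simp, ?_⟩
      · intro e'
        rcases Sym2.eq_iff.1 e' with ⟨-, rfl⟩ | ⟨h, -⟩
        exacts [h2 h, h1 h]
      · simp only [Sym2.mem_iff]
        rintro _ (rfl | rfl) _ (rfl | rfl)
        exacts [Or.inr (by omega), Or.inl ⟨rfl, rfl⟩, Or.inr (by omega), Or.inr (by omega)]

lemma conv (x q : ℕ) : q.choose 2 + q * x ≤ x.choose 2 + q * q := by
  have h : ((q.choose 2 : ℕ) : ℚ) + q * x ≤ (x.choose 2 : ℕ) + q * q := by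
    rw [Nat.cast_choose_two, Nat.cast_choose_two]
    rcases le_or_gt x q with h | h
    · have : (x : ℚ) ≤ q := by exact_mod_cast h
      nlinarith
    · have : (q : ℚ) + 1 ≤ x := by exact_mod_cast h
      nlinarith
  exact_mod_cast h

theorem result (V : Type) [Fintype V] (H T : SimpleGraph V) (hle : T ≤ H) (hT : T.IsTree)
    (ν q r : ℕ) (hν : H.edgeSet.ncard + 1 = Fintype.card V + ν)
    (hq : 2 * ν = q * (Fintype.card V - 1) + r) :
    (Fintype.card V - 1) * q.choose 2 + q * r ≤ inter H T := by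
  let N := H.edgeFinset \ T.edgeFinset
  have hE := hT.card_edgeFinset
  have hN : N.card = ν := by
    have := card_sdiff_add_card_eq_card (edgeFinset_mono hle)
    rw [Set.ncard_eq_toFinset_card'] at hν
    change H.edgeFinset.card + 1 = _ at hν
    simp only [N]; omega
  have hN' : ∀ e ∈ N, e ∈ H.edgeSet ∧ e ∉ T.edgeSet := fun e he => by simpa [N] using he
  have := fun e : N => ends hT.connected e.1 (H.not_isDiag_of_mem_edgeSet (hN' _ e.2).1)
    (hN' _ e.2).2
  choose a b u v h1 h2 h3 h4 h5 h6 h7 using this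
  let M : Sym2 V → Finset N := fun f => univ.filter fun e => f = a e ∨ f = b e
  have hs : ∑ f ∈ T.edgeFinset, (M f).card = 2 * ν := by
    simp only [M, card_filter]
    rw [sum_comm, sum_congr rfl (g := fun _ => 2)]
    · simp [hN, mul_comm]
    · intro e _
      rw [← card_filter, ← card_pair (h1 e)]
      congr 1; ext f
      simp only [mem_filter, mem_edgeFinset, mem_insert, mem_singleton, and_iff_right_iff_imp]
      rintro (rfl | rfl)
      exacts [h2 e, h3 e]
  let P : Sym2 V → Finset (Finset (Sym2 V)) := fun f => ((M f).image Subtype.val).powersetCard 2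
  have hd : (T.edgeFinset : Set (Sym2 V)).PairwiseDisjoint P := by
    intro f _ f' _ hff
    refine disjoint_left.2 fun s k1 k2 => ?_
    obtain ⟨k1, k3⟩ := mem_powersetCard.1 k1
    obtain ⟨k2, -⟩ := mem_powersetCard.1 k2
    have key : ∀ e ∈ s, ∃ u v, e = s(u, v) ∧ Q T f f' u v := fun e he => by
      obtain ⟨c, hc, rfl⟩ := mem_image.1 (k1 he)
      obtain ⟨c', hc', e'⟩ := mem_image.1 (k2 he)
      obtain rfl := Subtype.ext e'
      rcases (mem_filter.1 hc).2 with rfl | rfl <;> rcases (mem_filter.1 hc').2 with rfl | rfl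
      exacts [absurd rfl hff, ⟨_, _, h6 _, h7 _⟩, ⟨_, _, (h6 _).trans Sym2.eq_swap, Q_symm (h7 _)⟩,
        absurd rfl hff]
    obtain ⟨e, e', hne, rfl⟩ := card_eq_two.1 k3
    obtain ⟨_, _, r1, q1⟩ := key e (by simp)
    obtain ⟨_, _, r2, q2⟩ := key e' (by simp)
    exact hne (r1.trans ((Q_uniq q1 q2).trans r2.symm))
  have hb : ∑ f ∈ T.edgeFinset, (M f).card.choose 2 ≤ inter H T := by
    have : ∀ f, (M f).card.choose 2 = (P f).card := fun f => by
      rw [card_powersetCard, card_image_of_injective _ Subtype.val_injective]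
    simp only [this]
    rw [← card_biUnion hd, ← Set.ncard_coe_finset]
    refine Set.ncard_le_ncard fun s hs => ?_
    obtain ⟨f, -, hf⟩ := mem_biUnion.1 hs
    obtain ⟨k1, k2⟩ := mem_powersetCard.1 hf
    refine ⟨k2, fun e he => ?_, f, fun e he => ?_⟩ <;> obtain ⟨c, hc, rfl⟩ := mem_image.1 (k1 he)
    · exact hN' _ c.2
    · rcases (mem_filter.1 hc).2 with rfl | rfl
      exacts [h4 c, h5 c]
  have hc := sum_le_sum fun f (_ : f ∈ T.edgeFinset) => conv (M f).card q
  rw [sum_add_distrib, sum_add_distrib, ← mul_sum, hs, sum_const, sum_const, hq] at hc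
  rw [← hE, Nat.add_sub_cancel] at hc ⊢
  simp only [smul_eq_mul] at hc
  nlinarith

end Pool.Agent.Results.MP_648063_co.Q1
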